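import Pool.Agent.W142.TF.Stm2
import Pool.Agent.W863.TF.Net

set_option autoImplicit false
open Filter Topology Finset
open scoped BoundedContinuousFunction

/-! Project TF: separation of variables. -/

namespace Pool.Agent.W816.TF

open Pool.Agent.W634.BQ Pool.Agent.W505.BQ Pool.Agent.W27.FB Pool.Agent.W142.TF

theorem prod_diff (n : ℕ) (x y : ℕ → ℝ) (hx : ∀ i, 0 ≤ x i ∧ x i ≤ 1) (hy : ∀ i, 0 ≤ y i ∧ y i ≤ 1) (d : ℝ)
    (h : ∀ i, |x i - y i| ≤ d) : |∏ i ∈ range n, x i - ∏ i ∈ range n, y i| ≤ n * d := by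
  induction n with
  | zero => simp
  | succ n ih =>
    rw [prod_range_succ, prod_range_succ]
    have e : (∏ i ∈ range n, x i) * x n - (∏ i ∈ range n, y i) * y n =
        (∏ i ∈ range n, x i - ∏ i ∈ range n, y i) * x n + (∏ i ∈ range n, y i) * (x n - y n) := by ring
    rw [e]
    have h1 : 0 ≤ ∏ i ∈ range n, y i := prod_nonneg fun i _ => (hy i).1
    have h2 : ∏ i ∈ range n, y i ≤ 1 := prod_le_one (fun i _ => (hy i).1) fun i _ => (hy i).2
    refine (abs_add_le _ _).trans ?_
    rw [abs_mul, abs_mul, abs_of_nonneg (hx n).1, abs_of_nonneg h1]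
    have h3 : |∏ i ∈ range n, x i - ∏ i ∈ range n, y i| * x n ≤ n * d * 1 :=
      mul_le_mul ih (hx n).2 (hx n).1 ((abs_nonneg _).trans ih)
    have h4 : (∏ i ∈ range n, y i) * |x n - y n| ≤ 1 * d :=
      mul_le_mul h2 (h n) (abs_nonneg _) zero_le_one
    push_cast
    linarith

theorem toB_sum (F : Finset ℤ) (x : ℤ → ℝ) (g : ℤ → ℤ → ℝ) (C : ℝ) (hg : ∀ s n, |g s n| ≤ C) :
    toB (fun t => ∑ s ∈ F, x s * g s t) = ∑ s ∈ F, x s • toB (g s) := by
  ext n
  rw [toB_apply (C := ∑ s ∈ F, |x s| * C)]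
  · rw [BoundedContinuousFunction.coe_sum, Finset.sum_apply]
    refine Finset.sum_congr rfl fun s _ => ?_
    rw [BoundedContinuousFunction.coe_smul]
    simp only [smul_eq_mul]
    rw [toB_apply (hg s)]
  · intro k
    refine (abs_sum_le_sum_abs _ _).trans (Finset.sum_le_sum fun s _ => ?_)
    rw [abs_mul]
    exact mul_le_mul_of_nonneg_left (hg s k) (abs_nonneg _)

theorem sep : S_sep := by
  intro m hm P β hP hβ n c δ hδ
  have hn : (0 : ℝ) < (n : ℝ) + 1 := by positivity
  obtain ⟨F, hF⟩ := Pool.Agent.W863.TF.net (co P) hP.1 (δ / ((n : ℝ) + 1)) (div_pos hδ hn)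
  choose r hr hr2 using hF
  have hP01 := hP.2
  have hd : ∀ t k : ℤ, |P (k + t) - P (k + r t)| ≤ δ / ((n : ℝ) + 1) := by
    intro t k
    have := hr2 t k
    rw [co_apply, co_apply, ← Complex.ofReal_sub, Complex.norm_real, Real.norm_eq_abs] at this
    exact this
  obtain ⟨g, hgdef⟩ : ∃ g : ℤ → ℤ → ℝ, g = fun s t => β t * (if r t = s then 1 else 0) := ⟨_, rfl⟩
  have hg0 : ∀ s t, 0 ≤ g s t := by
    intro s t
    rw [hgdef]
    refine mul_nonneg (hβ t).1 ?_
    split_ifs <;> norm_num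
  have hg1 : ∀ s t, |g s t| ≤ 1 := by
    intro s t
    rw [abs_of_nonneg (hg0 s t), hgdef]
    have h1 := (hβ t).1
    have h2 := (hβ t).2
    by_cases h : r t = s
    · simp only [h, if_true]
      linarith
    · simp only [h, if_false]
      linarith
  have hsum : ∀ (x : ℤ → ℝ) (t : ℤ), ∑ s ∈ F, x s * g s t = β t * x (r t) := by
    intro x t
    rw [Finset.sum_eq_single (r t)]
    · rw [hgdef]
      simp only [if_true]
      ring
    · intro s _ hs
      rw [hgdef]
      simp only [if_neg (Ne.symm hs)]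
      ring
    · intro h
      exact absurd (hr t) h
  have hm_sum : ∀ x : ℤ → ℝ, ∑ s ∈ F, x s * m (toB (g s)) = m (toB (fun t => β t * x (r t))) := by
    intro x
    have h1 : (fun t => β t * x (r t)) = fun t => ∑ s ∈ F, x s * g s t := by
      funext t
      rw [hsum]
    rw [h1, toB_sum F x g 1 hg1, map_sum]
    refine Finset.sum_congr rfl fun s _ => ?_
    rw [map_smul, smul_eq_mul]
  refine ⟨F, fun s => m (toB (g s)), ?_, ?_, ?_⟩
  · intro s
    have h1 := m_toB_mono hm (g := fun _ => 0) (h := g s) (C := 0) (fun n => by simp) (hg1 s) (hg0 s)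
    rw [m_toB_const hm] at h1
    exact h1
  · have h1 := hm_sum fun _ => 1
    simp only [one_mul, mul_one] at h1
    rw [h1]
    have h2 := m_toB_mono hm (g := fun t => β t) (h := fun _ => 1) (C := 1) (D := 1)
      (fun n => by rw [abs_of_nonneg (hβ n).1]; exact (hβ n).2) (fun n => by simp) (fun n => (hβ n).2)
    rw [m_toB_const hm] at h2
    exact h2
  · intro a
    have h1 : ∑ t ∈ F, m (toB (g t)) * ∏ i ∈ range n, P (t - c i * a i) =
        m (toB (fun t => β t * ∏ i ∈ range n, P (r t - c i * a i))) := by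
      rw [← hm_sum (fun s => ∏ i ∈ range n, P (s - c i * a i))]
      exact Finset.sum_congr rfl fun s _ => mul_comm _ _
    rw [h1, ← map_sub]
    have hb : ∀ y : ℤ → ℤ, ∀ t, |β t * ∏ i ∈ range n, P (y t - c i * a i)| ≤ 1 := by
      intro y t
      have q0 : 0 ≤ ∏ i ∈ range n, P (y t - c i * a i) := prod_nonneg fun i _ => (hP01 _).1
      have q1 : ∏ i ∈ range n, P (y t - c i * a i) ≤ 1 :=
        prod_le_one (fun i _ => (hP01 _).1) fun i _ => (hP01 _).2
      rw [abs_of_nonneg (mul_nonneg (hβ t).1 q0)]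
      exact mul_le_one₀ (hβ t).2 q0 q1
    have h2 : toB (fun t => β t * ∏ i ∈ range n, P (t - c i * a i)) -
        toB (fun t => β t * ∏ i ∈ range n, P (r t - c i * a i)) =
        toB (fun t => β t * ∏ i ∈ range n, P (t - c i * a i) -
          β t * ∏ i ∈ range n, P (r t - c i * a i)) := by
      ext k
      rw [toB_apply (C := 1 + 1) (fun t => (abs_sub _ _).trans (add_le_add (hb (fun t => t) t) (hb r t))),
        BoundedContinuousFunction.coe_sub, Pi.sub_apply, toB_apply (hb fun t => t), toB_apply (hb r)]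
    rw [h2]
    refine m_toB_abs hm fun t => ?_
    rw [← mul_sub, abs_mul, abs_of_nonneg (hβ t).1]
    have h3 := prod_diff n (fun i => P (t - c i * a i)) (fun i => P (r t - c i * a i)) (fun i => hP01 _)
      (fun i => hP01 _) (δ / ((n : ℝ) + 1)) (fun i => by
        have := hd t (-(c i * a i))
        rwa [neg_add_eq_sub, neg_add_eq_sub] at this)
    have h4 : (n : ℝ) * (δ / ((n : ℝ) + 1)) ≤ δ := by
      rw [← mul_div_assoc, div_le_iff₀ hn]
      nlinarith
    calc β t * |∏ i ∈ range n, P (t - c i * a i) - ∏ i ∈ range n, P (r t - c i * a i)|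
        ≤ 1 * ((n : ℝ) * (δ / ((n : ℝ) + 1))) :=
          mul_le_mul (hβ t).2 h3 (abs_nonneg _) zero_le_one
      _ ≤ δ := by rw [one_mul]; exact h4

end Pool.Agent.W816.TF
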